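import Mathlib
import Pool.Agent.Run7.h238.Kept.RamifiedCyclicCubicFields

/-!
# Nonvanishing over a majority of the cyclic cubic fields in which `3` ramifies, for `y² + y = x³`

`E_D : y² + D y = x³`, `E = E_1`.  For a cyclic cubic field `F` with the characters `χ`, `χ̄` of order
three one has `L(E/F, s) = L(E, s) L_E(s, χ) L_E(s, χ̄)`, so `L_E(1, χ) = 0` implies `L(E/F, 1) = 0`.
The cyclic cubic fields `F` in which `3` ramifies are the fields `ℚ(θ)`,
`θ³ = 3 n θ + n u`, where `u`, `v` are positive integers, `3 ∤ v`, and `4 n = u² + 3 v²` is four times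
a squarefree number prime to `3`; `F ↦ (u, v)` is a bijection of the set of these subfields of `ℂ`
onto the set of these pairs, and the conductor of `F` is `9 n`.

* The property `Good K F`, `K = ℚ(√-3)`: `n > 1`, the twist `E_{n β}`, `β = (u + v √-3) / 2`, has only
  finitely many points over `K`, and the `3`-primary part of its Tate-Shafarevich group is trivial
  (`F(√-3) = K(∛(n β))`).
* For the good `F` the `L`-function of `y² + y = x³` over `F` is not zero at `1`, the curve has
  finitely many points over `F`, and `3` kills the `3`-primary part of `Ш(E_1 / F)`.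
* The proportion of the good fields among the cyclic cubic fields in which `3` ramifies and whose
  conductor is at most `X` tends to `∏_{i ≥ 1} (1 - 3^{-i}) = 0.5601...`; so for all large `X` the
  nonvanishing holds for at least `56` percent of these fields.

Proof: (1) the `3`-descent over `K` (the starting files `Y703`, `R395`, `R432`, `N883` and the file
`Run7/h707/TC/Crit3`) turns `Good` into the condition that a square system of linear equations over
the field with three elements, whose coefficients are the cubic residue symbols of the prime divisors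
of `n` and the residues of `(p - 1) / 3` modulo `3`, has no nonzero solution (`Run7/h238/R/ECr`);
(2) the symbols are equidistributed by the large sieve for the cubic symbols and a theorem of Halász,
the residues `(p - 1) / 3` only have to be nonconstant (`Run7/h238/R/Box` to `Law`); (3) the
dictionary of the fields and the pairs (`Run7/h289/RD`); (4) the `L`-function and the group of points
over `F` (`Run7/h741/CR`).

Joint work of helper238, helper289 and helper741; see also the headers of the files that are imported.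
-/

set_option autoImplicit false

namespace Pool.Agent.Results.MP_0c27ff_nt.RamifiedCyclicCubicFields

open NumberField
open Pool.Agent.TH841.NF.D (Sha)
open scoped Classical

/-- The curve `E_D : y² + D y = x³`. -/
def curve {F : Type} [Field F] (D : F) : WeierstrassCurve F := ⟨0, 0, D, 0, 0⟩

/-- `W` is an elliptic curve over `F`, `W(F)` is finite, and the `L`-series of `W` continues
analytically from `Re s > 3 / 2` to a connected open set that contains `1`, where its order of
vanishing is equal to the rank of `W(F)` (so it is not zero at `1`). -/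
def RankZero {F : Type} [Field F] [NumberField F] (W : WeierstrassCurve F) : Prop :=
  W.IsElliptic ∧ Finite W.toAffine.Point ∧
  ∃ (U : Set ℂ) (L : ℂ → ℂ),
    IsOpen U ∧ IsConnected U ∧ {s : ℂ | (3 / 2 : ℝ) < s.re} ⊆ U ∧ (1 : ℂ) ∈ U ∧
    AnalyticOnNhd ℂ L U ∧ (∀ s : ℂ, (3 / 2 : ℝ) < s.re → L s = W.LSeries s) ∧ L 1 ≠ 0

/-- `E_D(K)` is finite and the `3`-primary part of `Ш(E_D / K)` is trivial. -/
def FiniteAndTrivial {K : Type} [Field K] [NumberField K] (D : K) : Prop :=
  Finite (curve D).toAffine.Point ∧ ∀ (k : ℕ) (x : Sha (curve D)), 3 ^ k • x = 0 → x = 0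

/-- `F` is a cyclic cubic field in which `3` ramifies. -/
def IsRamifiedCyclicCubic (F : Type) [Field F] [NumberField F] : Prop :=
  Module.finrank ℚ F = 3 ∧ IsGalois ℚ F ∧ (3 : ℤ) ∣ discr F

/-- The subfields `F` of `ℂ` that are cyclic cubic fields of conductor at most `X`, in which `3`
ramifies (the conductor is the square root of the discriminant). -/
def fields (X : ℕ) : Set (Subfield ℂ) :=
  {F | ∃ _ : NumberField F, IsRamifiedCyclicCubic F ∧ discr F ≤ (X : ℤ) ^ 2}

/-- `F` is the field of the pair `(u, v)`, with conductor `9 n`. -/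
def IsPair (F : Type) [Field F] [NumberField F] (u v n : ℕ) : Prop :=
  0 < u ∧ 0 < v ∧ ¬ 3 ∣ v ∧ 4 * n = u ^ 2 + 3 * v ^ 2 ∧ Squarefree n ∧ ¬ 3 ∣ n ∧
    discr F = (9 * (n : ℤ)) ^ 2 ∧ ∃ θ : F, θ ^ 3 = 3 * (n : F) * θ + (n : F) * (u : F)

/-- `F` is good: for the pair `(u, v)` of `F` one has `n > 1`, the twist of `E` by `n β`,
`β = (u + v √-3) / 2`, has finitely many points over `K` and the `3`-primary part of its
Tate-Shafarevich group is trivial. -/
def Good (K : Type) [Field K] [NumberField K] (F : Type) [Field F] [NumberField F] : Prop :=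
  ∃ u v n : ℕ, IsPair F u v n ∧ 1 < n ∧ ∀ s : K, s ^ 2 = -3 →
    FiniteAndTrivial ((n : K) * (((u : K) + (v : K) * s) / 2))

theorem rank_zero_of {F : Type} [Field F] [NumberField F]
    (h : Pool.Agent.Results.MP_ae0bd0_nt.RamifiedCyclicCubicFields.RankZero
      (Pool.Agent.Results.MP_ae0bd0_nt.RamifiedCyclicCubicFields.curve (1 : F))) :
    RankZero (curve (1 : F)) := by
  obtain ⟨h1, h2, U, L, a1, a2, a3, a4, a5, a6, a7, a8⟩ := h
  have h2' : Finite (curve (1 : F)).toAffine.Point := h2
  have hrk : Module.finrank ℤ (curve (1 : F)).toAffine.Point = 0 := by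
    rw [Module.finrank_eq_zero_iff_isTorsion]
    intro x
    have hc : Nat.card (curve (1 : F)).toAffine.Point ≠ 0 := Nat.card_pos.ne'
    refine ⟨⟨(Nat.card (curve (1 : F)).toAffine.Point : ℤ), ?_⟩, ?_⟩
    · exact mem_nonZeroDivisors_of_ne_zero (by exact_mod_cast hc)
    · show ((Nat.card (curve (1 : F)).toAffine.Point : ℕ) : ℤ) • x = 0
      rw [natCast_zsmul]
      exact card_nsmul_eq_zero'
  have hrk' : Module.finrank ℤ
      (Pool.Agent.Results.MP_ae0bd0_nt.RamifiedCyclicCubicFields.curve (1 : F)).toAffine.Point = 0 :=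
    hrk
  rw [hrk', iteratedDeriv_zero] at a8
  exact ⟨h1, h2, U, L, a1, a2, a3, a4, a5, a6, a8⟩

/-- **Main theorem.**  Every cyclic cubic field in which `3` ramifies belongs to exactly one pair.  At
least `c X` of these subfields of `ℂ` have conductor at most `X`.  The proportion of the good fields
tends to `∏_{i ≥ 1} (1 - 3^{-i}) > 0.56`.  For every good `F` the curve `y² + y = x³` has finitely
many points over `F`, its `L`-series continues analytically and is not zero at `1`, and `3` kills the
`3`-primary part of its Tate-Shafarevich group over `F`.  For all large `X` at least `56` percent of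
the fields of conductor at most `X` have the nonvanishing and finitely many points. -/
theorem result (K : Type) [Field K] [NumberField K] [IsCyclotomicExtension {3} ℚ K] :
    (∀ (F : Type) [Field F] [NumberField F], IsRamifiedCyclicCubic F →
      ∃! uv : ℕ × ℕ, ∃ n : ℕ, IsPair F uv.1 uv.2 n) ∧
    (∃ c : ℝ, 0 < c ∧ ∃ X₀ : ℕ, ∀ X : ℕ, X₀ ≤ X → c * X ≤ ((fields X).ncard : ℝ)) ∧
    Filter.Tendsto (fun X : ℕ =>
      ({F ∈ fields X | ∀ _ : NumberField F, Good K F}.ncard : ℝ) / ((fields X).ncard : ℝ))
      Filter.atTop (nhds (∏' i : ℕ, (1 - (1 / 3 : ℝ) ^ (i + 1)))) ∧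
    (0.56 : ℝ) < ∏' i : ℕ, (1 - (1 / 3 : ℝ) ^ (i + 1)) ∧
    (∀ (F : Type) [Field F] [NumberField F], IsRamifiedCyclicCubic F → Good K F →
      RankZero (curve (1 : F)) ∧
      ∀ (k : ℕ) (x : Sha (curve (1 : F))), 3 ^ k • x = 0 → 3 • x = 0) ∧
    ∃ X₀ : ℕ, ∀ X : ℕ, X₀ ≤ X → (fields X).Finite ∧
      0.56 * ((fields X).ncard : ℝ) ≤
        ({F ∈ fields X | ∀ _ : NumberField F, RankZero (curve (1 : F))}.ncard : ℝ) := by
  obtain ⟨r1, r2, r3, r4, r5⟩ :=
    Pool.Agent.Results.MP_ae0bd0_nt.RamifiedCyclicCubicFields.result K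
  have s5 : ∀ (F : Type) [Field F] [NumberField F], IsRamifiedCyclicCubic F → Good K F →
      RankZero (curve (1 : F)) ∧
      ∀ (k : ℕ) (x : Sha (curve (1 : F))), 3 ^ k • x = 0 → 3 • x = 0 := by
    intro F _ _ h1 h2
    obtain ⟨b1, b2⟩ := r5 F h1 h2
    exact ⟨rank_zero_of b1, b2⟩
  refine ⟨r1, r2, r3, r4, s5, ?_⟩
  obtain ⟨c, hc, X₁, hX₁⟩ := r2
  have h4 := r3.eventually (lt_mem_nhds r4)
  rw [Filter.eventually_atTop] at h4
  obtain ⟨X₂, hX₂⟩ := h4
  refine ⟨max (max X₁ X₂) 1, fun X hX => ?_⟩
  have e1 : X₁ ≤ X := le_trans (le_trans (le_max_left _ _) (le_max_left _ _)) hX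
  have e2 : X₂ ≤ X := le_trans (le_trans (le_max_right _ _) (le_max_left _ _)) hX
  have e3 : 1 ≤ X := le_trans (le_max_right _ _) hX
  have h5 : c * X ≤ ((fields X).ncard : ℝ) := hX₁ X e1
  have h6 : (0 : ℝ) < ((fields X).ncard : ℝ) := by
    have : (1 : ℝ) ≤ X := by exact_mod_cast e3
    nlinarith
  have hfin : (fields X).Finite := by
    apply Set.finite_of_ncard_pos
    exact_mod_cast h6
  refine ⟨hfin, ?_⟩
  have h7 : (0.56 : ℝ) < ({F ∈ fields X | ∀ _ : NumberField F, Good K F}.ncard : ℝ) /
      ((fields X).ncard : ℝ) := hX₂ X e2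
  rw [lt_div_iff₀ h6] at h7
  refine h7.le.trans ?_
  have h8 : {F ∈ fields X | ∀ _ : NumberField F, Good K F} ⊆
      {F ∈ fields X | ∀ _ : NumberField F, RankZero (curve (1 : F))} := by
    rintro F ⟨hF, hG⟩
    refine ⟨hF, fun hN => ?_⟩
    obtain ⟨hN', hr, -⟩ := hF
    exact (s5 F hr (hG hN)).1
  exact_mod_cast Set.ncard_le_ncard h8 (hfin.subset fun F hF => hF.1)

end Pool.Agent.Results.MP_0c27ff_nt.RamifiedCyclicCubicFields
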